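import Pool.Agent.Helper71.UN.StD

/-! Project UN, module SQR. -/

set_option autoImplicit false

open Set Filter Topology Matrix
open scoped ContDiff ComplexConjugate

noncomputable section

namespace Pool.Agent.Helper13.UN

open Pool.Agent.Helper71.UN

theorem rt_ne {n : ℕ} (a b : Fin n) (e θ : ℝ) (x y : Fin n) (h : rt a b e θ x y ≠ 0) :
    x = y ∨ (x = a ∧ y = b) ∨ (x = b ∧ y = a) := by
  by_contra hc
  push Not at hc
  obtain ⟨h1, h2, h3⟩ := hc
  apply h
  unfold rt
  simp only [Matrix.of_apply]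
  split_ifs with g1 g2 g3 g4
  · exact absurd (g1.1.trans g1.2.symm) h1
  · exact absurd (g2.1.trans g2.2.symm) h1
  · exact absurd g3.2 (h3 g3.1)
  · exact absurd g4.2 (h2 g4.1)
  · rfl

theorem rt_smooth {n : ℕ} (a b : Fin n) (e : ℝ) (i : Fin 2) (x y : Fin n) :
    ContDiff ℝ ∞ fun z : Fin 2 → ℝ => rt a b e (Real.pi / 2 * z i) x y := by
  unfold rt
  simp only [Matrix.of_apply]
  have hz : ContDiff ℝ ∞ fun z : Fin 2 → ℝ => Real.pi / 2 * z i :=
    contDiff_const.mul (contDiff_apply ℝ ℝ i)
  split_ifs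
  · exact Real.contDiff_cos.comp hz
  · exact Real.contDiff_cos.comp hz
  · exact contDiff_const.mul (Real.contDiff_sin.comp hz)
  · exact (contDiff_const.mul (Real.contDiff_sin.comp hz)).neg
  · exact contDiff_const
  · exact contDiff_const

theorem hSQR (hs : StSTP) (hc : StCVX) (hf : StFRO) (hr : StROT) : StSQR := by
  intro n al u a b c d e f hab hcd hca hcb hda hdb he hf2
  obtain ⟨sC, sB, s0, s1, -⟩ := hs
  have hsw : sw (sw u a b) c d = sw (sw u c d) a b := by
    funext x
    simp only [sw]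
    congr 1
    by_cases hxa : x = a
    · subst hxa
      rw [Equiv.swap_apply_of_ne_of_ne (Ne.symm hca) (Ne.symm hda), Equiv.swap_apply_left,
        Equiv.swap_apply_of_ne_of_ne (Ne.symm hcb) (Ne.symm hdb)]
    · by_cases hxb : x = b
      · subst hxb
        rw [Equiv.swap_apply_of_ne_of_ne (Ne.symm hcb) (Ne.symm hdb), Equiv.swap_apply_right,
          Equiv.swap_apply_of_ne_of_ne (Ne.symm hca) (Ne.symm hda)]
      · rw [Equiv.swap_apply_of_ne_of_ne hxa hxb]
        by_cases hxc : x = c
        · subst hxc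
          rw [Equiv.swap_apply_left, Equiv.swap_apply_of_ne_of_ne hda hdb]
        · by_cases hxd : x = d
          · subst hxd
            rw [Equiv.swap_apply_right, Equiv.swap_apply_of_ne_of_ne hca hcb]
          · rw [Equiv.swap_apply_of_ne_of_ne hxc hxd, Equiv.swap_apply_of_ne_of_ne hxa hxb]
  obtain ⟨rO, r0, r3, -, -, r6, -⟩ := hr n u a b e hab.ne he
  obtain ⟨tO, t0, t3, -⟩ := hr n u c d f hcd.ne hf2
  obtain ⟨-, -, v3, -⟩ := hr n (sw u c d) a b e hab.ne he
  obtain ⟨-, -, w3, -⟩ := hr n (sw u a b) c d f hcd.ne hf2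
  set m : (Fin 2 → ℝ) → Fm n := fun z =>
    fr (rt a b e (Real.pi / 2 * z 0) * rt c d f (Real.pi / 2 * z 1)) u with hm
  have key := hc n al 2 univ m convex_univ
    (by
      intro l x y
      rw [contDiffOn_univ]
      have : (fun z => m z l x y) = fun z => ∑ k, if u k = l then
          (∑ j, rt a b e (Real.pi / 2 * z 0) x j * rt c d f (Real.pi / 2 * z 1) j k) *
          (∑ j, rt a b e (Real.pi / 2 * z 0) y j * rt c d f (Real.pi / 2 * z 1) j k) else 0 := by
        funext z
        simp only [hm]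
        rw [(hf n al _ u).1 l x y]
        simp only [Matrix.mul_apply]
      rw [this]
      apply ContDiff.sum
      intro k _
      split_ifs
      · apply ContDiff.mul
        · apply ContDiff.sum
          intro j _
          exact (rt_smooth a b e 0 x j).mul (rt_smooth c d f 1 j k)
        · apply ContDiff.sum
          intro j _
          exact (rt_smooth a b e 0 y j).mul (rt_smooth c d f 1 j k)
      · exact contDiff_const)
    (by
      intro z _
      simp only [hm]
      apply (hf n al _ u).2.1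
      · rw [Matrix.transpose_mul, Matrix.mul_assoc, ← Matrix.mul_assoc (rt c d f _), tO,
          Matrix.one_mul, rO]
      · intro x k hk
        rw [Matrix.mul_apply] at hk
        obtain ⟨j, -, hj⟩ := Finset.exists_ne_zero_of_sum_ne_zero hk
        have h1 := rt_ne a b e _ x j (left_ne_zero_of_mul hj)
        have h2 := rt_ne c d f _ j k (right_ne_zero_of_mul hj)
        rcases h1 with h1 | ⟨h1, h1'⟩ | ⟨h1, h1'⟩
        · subst h1
          rcases h2 with h2 | ⟨h2, h2'⟩ | ⟨h2, h2'⟩
          · subst h2; exact hab.self _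
          · rw [h2, h2']; exact hcd.ba
          · rw [h2, h2']; exact hcd.ab
        · rcases h2 with h2 | ⟨h2, -⟩ | ⟨h2, -⟩
          · rw [← h2, h1, h1']; exact hab.ba
          · exact absurd (h2.symm.trans h1') hcb
          · exact absurd (h2.symm.trans h1') hdb
        · rcases h2 with h2 | ⟨h2, -⟩ | ⟨h2, -⟩
          · rw [← h2, h1, h1']; exact hab.ab
          · exact absurd (h2.symm.trans h1') hca
          · exact absurd (h2.symm.trans h1') hda)
  have e1 : m ![0, 0] = pu u := by
    simp only [hm, Matrix.cons_val_zero, Matrix.cons_val_one, mul_zero]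
    rw [r0, t0, Matrix.one_mul, (hf n al 1 u).2.2]
  have e2 : m ![1, 1] = pu (sw (sw u a b) c d) := by
    simp only [hm, Matrix.cons_val_zero, Matrix.cons_val_one, mul_one]
    rw [t3]
    have := v3 1
    rw [Matrix.one_mul] at this
    rw [this, (hf n al 1 _).2.2, hsw]
  have hcomm : ∀ θ φ, rt a b e θ * rt c d f φ = rt c d f φ * rt a b e θ := fun θ φ =>
    r6 c d f θ φ hca hcb hda hdb hcd.ne
  have hone : ∀ (v : Fin n → Fin 4), fr (1 : Matrix (Fin n) (Fin n) ℝ) v = pu v := fun v =>
    (hf n al 1 v).2.2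
  have abend : fr (rt a b e (Real.pi / 2)) u = pu (sw u a b) := by
    have := r3 1
    rw [Matrix.one_mul] at this
    rw [this, hone]
  have cdend : fr (rt c d f (Real.pi / 2)) u = pu (sw u c d) := by
    have := t3 1
    rw [Matrix.one_mul] at this
    rw [this, hone]
  -- the paths
  have c1 : ContDiff ℝ ∞ fun s : ℝ => stp (2 * s) := sC.comp (contDiff_const.mul contDiff_id)
  have c2 : ContDiff ℝ ∞ fun s : ℝ => stp (2 * s - 1) :=
    sC.comp ((contDiff_const.mul contDiff_id).sub contDiff_const)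
  have pC : ∀ g h : ℝ → ℝ, ContDiff ℝ ∞ g → ContDiff ℝ ∞ h →
      ContDiff ℝ ∞ fun s : ℝ => (![g s, h s] : Fin 2 → ℝ) := by
    intro g h hg hh
    rw [contDiff_pi]
    intro i
    fin_cases i
    · simpa using hg
    · simpa using hh
  have path1 : (fun s => m ![stp (2 * s), stp (2 * s - 1)]) =
      mu (pu (sw u a b)) (ep u a b e) (ep (sw u a b) c d f) := by
    funext s l
    simp only [mu, hm, Matrix.cons_val_zero, Matrix.cons_val_one, ep]
    rcases le_total s (1 / 2) with h | h
    · have q1 : stp (2 * s - 1) = 0 := s0 _ (by linarith)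
      rw [q1, mul_zero]
      have : rt c d f 0 = 1 := t0
      rw [this, Matrix.mul_one, hone]
      abel
    · have q1 : stp (2 * s) = 1 := s1 _ (by linarith)
      rw [q1, mul_one, hcomm, r3, abend]
      abel
  have path2 : (fun s => m ![stp (2 * s - 1), stp (2 * s)]) =
      mu (pu (sw u c d)) (ep u c d f) (ep (sw u c d) a b e) := by
    funext s l
    simp only [mu, hm, Matrix.cons_val_zero, Matrix.cons_val_one, ep]
    rcases le_total s (1 / 2) with h | h
    · have q1 : stp (2 * s - 1) = 0 := s0 _ (by linarith)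
      rw [q1, mul_zero, r0, Matrix.one_mul, hone]
      abel
    · have q1 : stp (2 * s) = 1 := s1 _ (by linarith)
      rw [q1, mul_one, t3, cdend]
      abel
  have L1 : ∀ s : ℝ, s ≤ 0 → (![stp (2 * s), stp (2 * s - 1)] : Fin 2 → ℝ) = ![0, 0] := by
    intro s h
    rw [s0 _ (by linarith), s0 _ (by linarith)]
  have R1 : ∀ s : ℝ, 1 ≤ s → (![stp (2 * s), stp (2 * s - 1)] : Fin 2 → ℝ) = ![1, 1] := by
    intro s h
    rw [s1 _ (by linarith), s1 _ (by linarith)]
  have L2 : ∀ s : ℝ, s ≤ 0 → (![stp (2 * s - 1), stp (2 * s)] : Fin 2 → ℝ) = ![0, 0] := by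
    intro s h
    rw [s0 _ (by linarith), s0 _ (by linarith)]
  have R2 : ∀ s : ℝ, 1 ≤ s → (![stp (2 * s - 1), stp (2 * s)] : Fin 2 → ℝ) = ![1, 1] := by
    intro s h
    rw [s1 _ (by linarith), s1 _ (by linarith)]
  have L3 : ∀ s : ℝ, s ≤ 0 → (![stp s, stp s] : Fin 2 → ℝ) = ![0, 0] := by
    intro s h
    rw [s0 _ h]
  have R3 : ∀ s : ℝ, 1 ≤ s → (![stp s, stp s] : Fin 2 → ℝ) = ![1, 1] := by
    intro s h
    rw [s1 _ h]
  have k1 := key (fun s => ![stp (2 * s), stp (2 * s - 1)]) (fun s => ![stp (2 * s - 1), stp (2 * s)])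
    ![0, 0] ![1, 1] (pC _ _ c1 c2) (pC _ _ c2 c1) (fun _ => mem_univ _) (fun _ => mem_univ _)
    L1 R1 L2 R2
  have k2 := key (fun s => ![stp (2 * s), stp (2 * s - 1)]) (fun s => ![stp s, stp s])
    ![0, 0] ![1, 1] (pC _ _ c1 c2) (pC _ _ sC sC) (fun _ => mem_univ _) (fun _ => mem_univ _)
    L1 R1 L3 R3
  rw [e1, e2] at k1 k2
  refine ⟨hsw, ?_, ?_⟩
  · have : Hm al (pu u) (pu (sw (sw u a b) c d)) (fun s => m ![stp (2 * s), stp (2 * s - 1)])
        (fun s => m ![stp (2 * s - 1), stp (2 * s)]) := k1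
    rwa [path1, path2] at this
  · have : Hm al (pu u) (pu (sw (sw u a b) c d)) (fun s => m ![stp (2 * s), stp (2 * s - 1)])
        (fun s => m ![stp s, stp s]) := k2
    rw [path1] at this
    exact this

end Pool.Agent.Helper13.UN
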